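import Pool.Agent.J6H99.NX.Stm
import Pool.Agent.J6H99.NX.Exp

/-!
# The time constant as a function on the space

`U q F y a` says that the mean passage times to `rnd (n y)` are at most `n (a + o(1))`, `L q F y` is
the least such `a`, `CC q F` is the compact set of the functionals which are at most the mean passage
time on the lattice. `L` is sublinear and the maximum of the functionals in `CC`.
-/

set_option autoImplicit false
set_option linter.unusedSectionVars false

open MeasureTheory ProbabilityTheory Filter Topology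
open scoped ENNReal

namespace Pool.Agent.J6H84.NX

open Pool.Agent.J6H99.NX

variable {e : ℕ}

/-! ### the mean passage time -/

section

variable (q : Par) (F : Measure ℝ) [IsProbabilityMeasure F] [MB q F]

lemma int_act (φ : (lat e) ≃g (lat e)) (x y : V e) :
    ∫ ω, T q ω (φ x) (φ y) ∂(PM e F) = ∫ ω, T q ω x y ∂(PM e F) := by
  have h1 : (fun ω : Om e => T q ω (φ x) (φ y)) = fun ω => T q (act φ ω) x y := by
    funext ω
    rw [T_act]
  rw [h1]
  have hm := act_mp (e := e) F φ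
  have h2 : ∫ ω, T q ω x y ∂(Measure.map (act φ) (PM e F)) =
      ∫ ω, T q (act φ ω) x y ∂(PM e F) :=
    integral_map hm.measurable.aemeasurable (measurable_T q x y).aestronglyMeasurable
  rw [hm.map_eq] at h2
  exact h2.symm

lemma g_tr (z x : V e) : ∫ ω, T q ω z (z + x) ∂(PM e F) = g q F x := by
  have h := int_act q F (tr z) 0 x
  rw [tr_apply, tr_apply, zero_add, add_comm x z] at h
  exact h

lemma g_add (x y : V e) : g q F (x + y) ≤ g q F x + g q F y := g_add_le q F x y

lemma g_nsmul (n : ℕ) (x : V e) : g q F (n • x) ≤ n * g q F x := by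
  induction n with
  | zero => simp [g_zero]
  | succ n ih =>
    rw [succ_nsmul]
    have := g_add q F (n • x) x
    push_cast
    linarith

/-! ### the time constant -/

/-- the mean passage time to `rnd (n y)` is at most `n (a + o(1))` -/
def U (y : E e) (a : ℝ) : Prop :=
  ∀ δ : ℝ, 0 < δ → ∀ᶠ n : ℕ in atTop, g q F (rnd ((n : ℝ) • y)) ≤ n * (a + δ)

variable {q F}

/-- bounded errors do not matter -/
lemma U_of {y : E e} {a K : ℝ} (h : ∀ δ : ℝ, 0 < δ → ∀ᶠ n : ℕ in atTop,
    g q F (rnd ((n : ℝ) • y)) ≤ n * (a + δ) + K) : U q F y a := by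
  intro δ hδ
  obtain ⟨N, hN⟩ := exists_nat_gt (K / (δ / 2))
  filter_upwards [h (δ / 2) (by positivity), eventually_ge_atTop N] with n h1 h2
  have h3 : K ≤ n * (δ / 2) := by
    rw [div_lt_iff₀ (by positivity)] at hN
    have h4 : (N : ℝ) ≤ n := by exact_mod_cast h2
    have h5 : (N : ℝ) * (δ / 2) ≤ n * (δ / 2) := mul_le_mul_of_nonneg_right h4 (by positivity)
    linarith
  linarith

lemma U.mono {y : E e} {a a' : ℝ} (h : U q F y a) (ha : a ≤ a') : U q F y a' := by
  intro δ hδ
  filter_upwards [h δ hδ] with n hn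
  refine hn.trans (mul_le_mul_of_nonneg_left (by linarith) (Nat.cast_nonneg n))

lemma U_bound (y : E e) : U q F y (q.b * nr y) := by
  refine U_of (K := q.b * ((e : ℝ) + 2)) fun δ hδ => Eventually.of_forall fun n => ?_
  have h1 := g_le q F (rnd ((n : ℝ) • y))
  have h2 := n1_rnd_le ((n : ℝ) • y)
  rw [nr_smul, abs_of_nonneg (Nat.cast_nonneg n)] at h2
  have h3 := mul_le_mul_of_nonneg_left h2 q.hb.le
  have h4 : (0 : ℝ) ≤ n * δ := by positivity
  nlinarith

lemma U_zero : U q F (0 : E e) 0 := by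
  refine U_of (K := 0) fun δ hδ => Eventually.of_forall fun n => ?_
  rw [smul_zero, rnd_zero, g_zero]
  positivity

lemma U.add {y z : E e} {a c : ℝ} (h : U q F y a) (h' : U q F z c) : U q F (y + z) (a + c) := by
  refine U_of (K := q.b * (3 * ((e : ℝ) + 2))) fun δ hδ => ?_
  filter_upwards [h (δ / 2) (by positivity), h' (δ / 2) (by positivity)] with n h1 h2
  have h3 := g_add q F (rnd ((n : ℝ) • y)) (rnd ((n : ℝ) • z))
  have h4 := g_sub_le q F (rnd ((n : ℝ) • (y + z))) (rnd ((n : ℝ) • y) + rnd ((n : ℝ) • z))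
  have h5 : (n1 (rnd ((n : ℝ) • (y + z)) - (rnd ((n : ℝ) • y) + rnd ((n : ℝ) • z))) : ℝ) ≤
      3 * ((e : ℝ) + 2) := by
    rw [← nr_vc, vc_sub, vc_add]
    have e1 : vc (rnd ((n : ℝ) • (y + z))) - (vc (rnd ((n : ℝ) • y)) + vc (rnd ((n : ℝ) • z))) =
        (vc (rnd ((n : ℝ) • (y + z))) - (n : ℝ) • (y + z)) -
          ((vc (rnd ((n : ℝ) • y)) - (n : ℝ) • y) + (vc (rnd ((n : ℝ) • z)) - (n : ℝ) • z)) := by
      rw [smul_add]; abel
    rw [e1]
    have h6 := nr_rnd_sub ((n : ℝ) • (y + z))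
    have h7 := nr_rnd_sub ((n : ℝ) • y)
    have h8 := nr_rnd_sub ((n : ℝ) • z)
    have h9 := nr_sub_le (vc (rnd ((n : ℝ) • (y + z))) - (n : ℝ) • (y + z))
      ((vc (rnd ((n : ℝ) • y)) - (n : ℝ) • y) + (vc (rnd ((n : ℝ) • z)) - (n : ℝ) • z))
    have h10 := nr_add_le (vc (rnd ((n : ℝ) • y)) - (n : ℝ) • y)
      (vc (rnd ((n : ℝ) • z)) - (n : ℝ) • z)
    linarith
  have h6 := mul_le_mul_of_nonneg_left h5 q.hb.le
  linarith

lemma U.smul {y : E e} {a t : ℝ} (ht : 0 < t) (h : U q F y a) : U q F (t • y) (t * a) := by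
  refine U_of (K := |a| + 1 + q.b * (nr y + 2 * ((e : ℝ) + 2))) fun δ hδ => ?_
  have hδ' : 0 < min 1 (δ / t) := lt_min one_pos (div_pos hδ ht)
  have h1 := h _ hδ'
  have h2 : Tendsto (fun n : ℕ => ⌊(n : ℝ) * t⌋₊) atTop atTop :=
    tendsto_nat_floor_atTop.comp (tendsto_natCast_atTop_atTop.atTop_mul_const ht)
  filter_upwards [h2.eventually h1] with n h3
  set m := ⌊(n : ℝ) * t⌋₊ with hm
  have hnt : 0 ≤ (n : ℝ) * t := by positivity
  have h4 : (m : ℝ) ≤ n * t := Nat.floor_le hnt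
  have h5 : (n : ℝ) * t < m + 1 := Nat.lt_floor_add_one _
  have h6 := g_sub_le q F (rnd ((n : ℝ) • t • y)) (rnd ((m : ℝ) • y))
  have h7 := n1_rnd_sub_le ((n : ℝ) • t • y) ((m : ℝ) • y)
  have h8 : nr ((n : ℝ) • t • y - (m : ℝ) • y) ≤ nr y := by
    rw [smul_smul, ← sub_smul, nr_smul]
    have h9 : |(n : ℝ) * t - m| ≤ 1 := by
      rw [abs_le]; constructor <;> linarith
    nlinarith [nr_nonneg y, abs_nonneg ((n : ℝ) * t - m)]
  have h9 := mul_le_mul_of_nonneg_left (h7.trans (by linarith :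
    nr ((n : ℝ) • t • y - (m : ℝ) • y) + 2 * ((e : ℝ) + 2) ≤ nr y + 2 * ((e : ℝ) + 2))) q.hb.le
  -- `m (a + δ') ≤ n t a + n t δ' + |a| + 1`
  have h10 : (m : ℝ) * (a + min 1 (δ / t)) ≤ n * (t * a + δ) + (|a| + 1) := by
    have h11 : (m : ℝ) * a ≤ n * t * a + |a| := by
      have h12 : ((m : ℝ) - n * t) * a ≤ |(m : ℝ) - n * t| * |a| := by
        rw [← abs_mul]; exact le_abs_self _
      have h13 : |(m : ℝ) - n * t| ≤ 1 := by
        rw [abs_le]; constructor <;> linarith
      nlinarith [abs_nonneg a]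
    have h14 : (m : ℝ) * min 1 (δ / t) ≤ n * δ := by
      calc (m : ℝ) * min 1 (δ / t) ≤ (n * t) * (δ / t) := by
            apply mul_le_mul h4 (min_le_right _ _) hδ'.le hnt
        _ = n * δ := by field_simp
    nlinarith
  linarith

/-- functionals below the mean passage time -/
lemma U.ge {y : E e} {a : ℝ} (h : U q F y a) {c : E e} (hc : ∀ x : V e, lf c x ≤ g q F x) :
    dt c y ≤ a := by
  by_contra hlt
  push Not at hlt
  set δ := (dt c y - a) / 2 with hδ
  have hδ0 : 0 < δ := by rw [hδ]; linarith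
  obtain ⟨N, hN⟩ := exists_nat_gt (nr c * ((e : ℝ) + 2) / δ)
  obtain ⟨n, h1, h2⟩ := ((h δ hδ0).and (eventually_ge_atTop N)).exists
  have h3 := hc (rnd ((n : ℝ) • y))
  have h4 := abs_lf_rnd_sub c ((n : ℝ) • y)
  rw [dt_smul] at h4
  have h5 := (abs_le.1 h4).1
  have h6 : (N : ℝ) ≤ n := by exact_mod_cast h2
  rw [div_lt_iff₀ hδ0] at hN
  have h7 : (N : ℝ) * δ ≤ n * δ := mul_le_mul_of_nonneg_right h6 hδ0.le
  have h8 : (n : ℝ) * (dt c y) - n * (a + δ) = n * δ := by rw [hδ]; ring
  linarith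

lemma U.nonneg {y : E e} {a : ℝ} (h : U q F y a) : 0 ≤ a := by
  have h1 := h.ge (c := 0) fun x => by
    have : lf (0 : E e) x = 0 := by simp [lf, dt]
    rw [this]; exact g_nonneg q F x
  simpa [dt] using h1

variable (q F)

/-- the time constant -/
noncomputable def L (y : E e) : ℝ := sInf {a : ℝ | U q F y a}

variable {q F}

lemma L_le {y : E e} {a : ℝ} (h : U q F y a) : L q F y ≤ a :=
  csInf_le ⟨0, fun _ h => U.nonneg h⟩ h

lemma U_L (y : E e) : U q F y (L q F y) := by
  intro δ hδ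
  obtain ⟨a, ha, h1⟩ := exists_lt_of_csInf_lt ⟨_, U_bound y⟩
    (show L q F y < L q F y + δ / 2 by linarith)
  filter_upwards [ha (δ / 2) (by positivity)] with n hn
  refine hn.trans (mul_le_mul_of_nonneg_left (by linarith) (Nat.cast_nonneg n))

lemma L_le_iff {y : E e} {a : ℝ} : L q F y ≤ a ↔ U q F y a :=
  ⟨fun h => (U_L y).mono h, L_le⟩

lemma L_nonneg (y : E e) : 0 ≤ L q F y := (U_L y).nonneg

lemma L_zero : L q F (0 : E e) = 0 := le_antisymm (L_le U_zero) (L_nonneg _)

lemma L_bound (y : E e) : L q F y ≤ q.b * nr y := L_le (U_bound y)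

lemma L_add (y z : E e) : L q F (y + z) ≤ L q F y + L q F z := L_le ((U_L y).add (U_L z))

lemma L_smul {t : ℝ} (ht : 0 < t) (y : E e) : L q F (t • y) = t * L q F y := by
  refine le_antisymm (L_le ((U_L y).smul ht)) ?_
  have h := L_le (((U_L (q := q) (F := F) (t • y))).smul (inv_pos.2 ht))
  rw [smul_smul, inv_mul_cancel₀ ht.ne', one_smul] at h
  have h2 := mul_le_mul_of_nonneg_left h ht.le
  rwa [← mul_assoc, mul_inv_cancel₀ ht.ne', one_mul] at h2

lemma L_vc (x : V e) : L q F (vc x) ≤ g q F x := by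
  refine L_le (U_of (K := 0) fun δ hδ => Eventually.of_forall fun n => ?_)
  have h1 : rnd ((n : ℝ) • vc x) = n • x := by
    have h2 : (n : ℝ) • vc x = vc (n • x) := by
      funext i
      simp [vc]
    rw [h2, rnd_vc]
  rw [h1]
  have h3 := g_nsmul q F n x
  have h4 : (0 : ℝ) ≤ n * δ := by positivity
  linarith

/-! ### functionals -/

variable (q F)

/-- the functionals which are at most the mean passage time -/
def CC : Set (E e) := {c | ∀ x : V e, lf c x ≤ g q F x}

variable {q F}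

lemma dt_le_L {c : E e} (hc : c ∈ CC q F) (y : E e) : dt c y ≤ L q F y := (U_L y).ge hc

lemma supp_iff {c y : E e} : Supp q F c y ↔ c ∈ CC q F ∧ dt c y = L q F y := by
  constructor
  · intro h
    refine ⟨h.1, le_antisymm (dt_le_L h.1 y) (L_le h.2)⟩
  · intro h
    exact ⟨h.1, by rw [h.2]; exact U_L y⟩

/-- the linear functionals are the `dt c` -/
lemma exists_dt (φ : E e →ₗ[ℝ] ℝ) : ∃ c : E e, ∀ y, φ y = dt c y := by
  refine ⟨fun i => φ (Pi.single i 1), fun y => ?_⟩
  have h1 : y = ∑ i, y i • (Pi.single i (1 : ℝ) : E e) := by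
    funext j
    rw [Finset.sum_apply, Finset.sum_eq_single j]
    · simp
    · intro i _ hij
      simp [Pi.single_eq_of_ne (Ne.symm hij)]
    · simp
  conv_lhs => rw [h1]
  rw [map_sum]
  unfold dt
  refine Finset.sum_congr rfl fun i _ => ?_
  rw [map_smul, smul_eq_mul, mul_comm]

/-- a functional below `L` is in `CC` -/
lemma mem_CC {c : E e} (h : ∀ y, dt c y ≤ L q F y) : c ∈ CC q F := fun x => (h (vc x)).trans (L_vc x)

lemma smul_L_le (t : ℝ) (y : E e) : t * L q F y ≤ L q F (t • y) := by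
  rcases lt_trichotomy t 0 with h | h | h
  · have h1 := L_add (q := q) (F := F) (t • y) ((-t) • y)
    rw [← add_smul, add_neg_cancel, zero_smul, L_zero, L_smul (neg_pos.2 h)] at h1
    linarith
  · rw [h, zero_mul, zero_smul, L_zero]
  · rw [L_smul h]

/-- Hahn-Banach: there are supporting functionals in every direction -/
theorem exists_supp (y : E e) : ∃ c, c ∈ CC q F ∧ dt c y = L q F y := by
  by_cases hy : y = 0
  · refine ⟨0, fun x => ?_, ?_⟩
    · have : lf (0 : E e) x = 0 := by simp [lf, dt]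
      rw [this]; exact g_nonneg q F x
    · rw [hy, L_zero]; simp [dt]
  obtain ⟨f, hf1, hf2⟩ := exists_extension_of_le_sublinear
    (LinearPMap.mkSpanSingleton (K := ℝ) (F := ℝ) y (L q F y) hy) (L q F)
    (fun t ht z => L_smul ht z) (fun z z' => L_add z z') (by
      rintro ⟨z, hz⟩
      obtain ⟨t, ht⟩ := Submodule.mem_span_singleton.1 hz
      subst ht
      have h0 := LinearPMap.mkSpanSingleton'_apply (σ := RingHom.id ℝ) y (L q F y)
        (fun c hc => by rw [(smul_eq_zero.1 hc).resolve_right hy]; simp) t hz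
      refine le_of_eq_of_le h0 ?_
      simpa using smul_L_le t y)
  obtain ⟨c, hc⟩ := exists_dt f
  refine ⟨c, mem_CC fun z => ?_, ?_⟩
  · rw [← hc]; exact hf2 z
  · rw [← hc]
    have h1 := hf1 ⟨y, Submodule.mem_span_singleton_self y⟩
    simp only at h1
    rw [h1]
    exact LinearPMap.mkSpanSingleton_apply ℝ ℝ hy (L q F y)

end

end Pool.Agent.J6H84.NX
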