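import Pool.Agent.J6H84.NX.G2

/-!
# Vertices of the limit shape are corners (all dimensions)
-/

set_option autoImplicit false
set_option linter.unusedSectionVars false

open MeasureTheory ProbabilityTheory Filter Topology
open scoped ENNReal

namespace Pool.Agent.J6H84.NX

open Pool.Agent.J6H99.NX

variable {e : ℕ} {q : Par} {F : Measure ℝ} [IsProbabilityMeasure F] [MB q F]

/-- tangency in the form of the definition of corners -/
lemma tang_of {v w : E e} (hv1 : L q F v = 1)
    (hw : ∀ c ∈ CC q F, dt c v = L q F v → dt c w ≤ 0) : ∀ δ : ℝ, 0 < δ →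
    ∃ s0 : ℝ, 0 < s0 ∧ ∀ s : ℝ, 0 < s → s ≤ s0 →
      ∀ᶠ n : ℕ in atTop, g q F (rnd ((n : ℝ) • (v + s • w))) ≤ n * (1 + δ * s) := by
  intro δ hδ
  obtain ⟨s0, hs0, h1⟩ := tangency hw (show 0 < δ / 2 by positivity)
  refine ⟨s0, hs0, fun s hs hss => ?_⟩
  have h2 := h1 s hs hss
  rw [hv1] at h2
  have h3 := (U_L (q := q) (F := F) (v + s • w)).mono h2 (δ / 2 * s) (by positivity)
  filter_upwards [h3] with n hn
  refine hn.trans (mul_le_mul_of_nonneg_left (le_of_eq ?_) (Nat.cast_nonneg n))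
  ring

/-- there is a vector which is not a multiple of `v` -/
lemma exists_transversal (v : E e) : ∃ w : E e, ∀ t : ℝ, w ≠ t • v := by
  by_contra h
  push Not at h
  have h01 : (0 : Fin (e + 2)) ≠ 1 := by
    intro h
    have := congrArg Fin.val h
    simp at this
  obtain ⟨t, ht⟩ := h (Pi.single 0 1)
  obtain ⟨t', ht'⟩ := h (Pi.single 1 1)
  have h1 := congrFun ht 0
  have h2 := congrFun ht 1
  have h3 := congrFun ht' 0
  have h4 := congrFun ht' 1
  simp only [Pi.single_eq_same, Pi.smul_apply, smul_eq_mul] at h1 h4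
  rw [Pi.single_eq_of_ne h01.symm] at h2
  rw [Pi.single_eq_of_ne h01] at h3
  simp only [Pi.smul_apply, smul_eq_mul] at h2 h3
  have ht0 : t ≠ 0 := by
    rintro rfl
    simp at h1
  have hv1 : v 1 = 0 := by
    rcases mul_eq_zero.1 h2.symm with h | h
    · exact absurd h ht0
    · exact h
  rw [hv1, mul_zero] at h4
  exact one_ne_zero h4

/-- the supporting functionals which maximise a transversal direction -/
def Good (q : Par) (F : Measure ℝ) [IsProbabilityMeasure F] [MB q F] (v : E e) : Set (E e) :=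
  {f | f ∈ DD q F v ∧ ∃ w : E e, (∀ t : ℝ, w ≠ t • v) ∧ ∀ c ∈ DD q F v, dt c w ≤ dt f w}

lemma exists_good (v w : E e) (hw : ∀ t : ℝ, w ≠ t • v) : ∃ f ∈ Good q F v,
    ∀ c ∈ DD q F v, dt c w ≤ dt f w := by
  obtain ⟨f, hf, hmax⟩ := (isCompact_DD (q := q) (F := F) v).exists_isMaxOn (DD_nonempty v)
    (continuous_dt_left w).continuousOn
  exact ⟨f, ⟨hf, w, hw, fun c hc => hmax hc⟩, fun c hc => hmax hc⟩

/-- finitely many functionals of `Good` separate as much as all of them -/
lemma exists_finite (v : E e) : ∃ t : Finset (E e), (∀ f ∈ t, f ∈ Good q F v) ∧ t.Nonempty ∧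
    ∀ y : E e, (∀ f ∈ t, ∀ f' ∈ t, dt f y = dt f' y) →
      ∀ f ∈ Good q F v, ∀ f' ∈ Good q F v, dt f y = dt f' y := by
  classical
  obtain ⟨w, hw⟩ := exists_transversal v
  obtain ⟨f0, hf0, -⟩ := exists_good (q := q) (F := F) v w hw
  obtain ⟨b, hb1, hb2, hb3⟩ := exists_linearIndependent ℝ ((fun f => f - f0) '' Good q F v)
  have hbf : b.Finite := hb3.setFinite
  refine ⟨insert f0 (hbf.toFinset.image fun x => x + f0), ?_, ⟨f0, Finset.mem_insert_self _ _⟩, ?_⟩
  · intro f hf
    rcases Finset.mem_insert.1 hf with rfl | hf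
    · exact hf0
    · obtain ⟨x, hx, rfl⟩ := Finset.mem_image.1 hf
      obtain ⟨f', hf', rfl⟩ := hb1 (hbf.mem_toFinset.1 hx)
      simpa using hf'
  · intro y hy
    have h1 : ∀ x ∈ Submodule.span ℝ b, dt x y = 0 := by
      intro x hx
      induction hx using Submodule.span_induction with
      | mem x hx =>
        have h2 := hy (x + f0) (Finset.mem_insert_of_mem
          (Finset.mem_image_of_mem _ (hbf.mem_toFinset.2 hx))) f0 (Finset.mem_insert_self _ _)
        rw [add_dt] at h2
        linarith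
      | zero => simp [dt]
      | add a b _ _ ha hb => rw [add_dt, ha, hb, add_zero]
      | smul r a _ ha => rw [smul_dt, ha, mul_zero]
    have h3 : ∀ f ∈ Good q F v, dt f y = dt f0 y := by
      intro f hf
      have h4 := h1 (f - f0) (by
        rw [hb2]
        exact Submodule.subset_span ⟨f, hf, rfl⟩)
      rw [sub_dt] at h4
      linarith
    intro f hf f' hf'
    rw [h3 f hf, h3 f' hf']

/-- the lateral estimate -/
lemma exists_lat (v : E e) {t : Finset (E e)} (ht : t.Nonempty) (htv : ∀ f ∈ t, dt f v = 1)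
    (h : ∀ y : E e, (∀ f ∈ t, ∀ f' ∈ t, dt f y = dt f' y) → ∃ r : ℝ, y = r • v) :
    ∃ c0 : ℝ, 0 < c0 ∧ ∀ y : E e,
      ∃ i : t, c0 * nr (y - dt ((Fintype.card t : ℝ)⁻¹ • ∑ j : t, j.1) y • v) ≤
        dt i.1 y - dt ((Fintype.card t : ℝ)⁻¹ • ∑ j : t, j.1) y := by
  classical
  have : Nonempty t := ⟨⟨ht.choose, ht.choose_spec⟩⟩
  set χ : E e := (Fintype.card t : ℝ)⁻¹ • ∑ j : t, j.1 with hχ
  have hcard : 0 < (Fintype.card t : ℝ) := by exact_mod_cast Fintype.card_pos
  have hchi : ∀ y, (Fintype.card t : ℝ) * dt χ y = ∑ j : t, dt j.1 y := by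
    intro y
    rw [hχ, smul_dt, sum_dt, ← mul_assoc, mul_inv_cancel₀ hcard.ne', one_mul]
  have hchiv : dt χ v = 1 := by
    have h1 := hchi v
    rw [Finset.sum_congr rfl fun j _ => htv j.1 j.2] at h1
    simp only [Finset.sum_const, Finset.card_univ, nsmul_eq_mul, mul_one] at h1
    exact mul_left_cancel₀ hcard.ne' (h1.trans (mul_one _).symm)
  -- the sum of the absolute values on the kernel of `χ`
  set Φ : E e → ℝ := fun y => ∑ j : t, |dt j.1 y| with hΦ
  have hΦc : Continuous Φ := by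
    rw [hΦ]
    unfold dt
    fun_prop
  have hcont_nr : Continuous fun y : E e => nr y := by unfold nr; fun_prop
  have hcont_chi : Continuous fun y : E e => dt χ y := by unfold dt; fun_prop
  have hK : IsCompact {y : E e | nr y = 1 ∧ dt χ y = 0} := by
    refine Metric.isCompact_of_isClosed_isBounded
      ((isClosed_eq hcont_nr continuous_const).inter (isClosed_eq hcont_chi continuous_const)) ?_
    refine (Metric.isBounded_closedBall (x := (0 : E e)) (r := 1)).subset fun y hy => ?_
    rw [mem_closedBall_zero_iff, pi_norm_le_iff_of_nonneg zero_le_one]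
    intro i
    rw [Real.norm_eq_abs, ← hy.1]
    exact abs_coord_le y i
  have hpos : ∀ y : E e, nr y = 1 → dt χ y = 0 → 0 < Φ y := by
    intro y hy1 hy2
    by_contra hle
    push Not at hle
    have h0 : Φ y = 0 := le_antisymm hle (Finset.sum_nonneg fun _ _ => abs_nonneg _)
    have h1 : ∀ j : t, dt j.1 y = 0 := fun j => abs_eq_zero.1
      ((Finset.sum_eq_zero_iff_of_nonneg fun _ _ => abs_nonneg _).1 h0 j (Finset.mem_univ _))
    obtain ⟨r, hr⟩ := h y fun f hf f' hf' => by rw [h1 ⟨f, hf⟩, h1 ⟨f', hf'⟩]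
    rw [hr, dt_smul, hchiv, mul_one] at hy2
    rw [hr, hy2, zero_smul, nr_zero] at hy1
    exact zero_ne_one hy1
  obtain ⟨κ, hκ, hκ1⟩ : ∃ κ : ℝ, 0 < κ ∧ ∀ y : E e, nr y = 1 → dt χ y = 0 → κ ≤ Φ y := by
    rcases {y : E e | nr y = 1 ∧ dt χ y = 0}.eq_empty_or_nonempty with he | hne
    · refine ⟨1, one_pos, fun y h1 h2 => ?_⟩
      have : y ∈ {y : E e | nr y = 1 ∧ dt χ y = 0} := ⟨h1, h2⟩
      rw [he] at this
      exact absurd this (Set.notMem_empty y)
    · obtain ⟨y0, hy0, hmin⟩ := hK.exists_isMinOn hne hΦc.continuousOn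
      exact ⟨Φ y0, hpos y0 hy0.1 hy0.2, fun y h1 h2 => hmin ⟨h1, h2⟩⟩
  have hhom : ∀ y : E e, dt χ y = 0 → κ * nr y ≤ Φ y := by
    intro y hy
    rcases eq_or_ne y 0 with rfl | hy0
    · rw [nr_zero, mul_zero]; exact Finset.sum_nonneg fun _ _ => abs_nonneg _
    have hn := nr_pos hy0
    have h1 := hκ1 ((nr y)⁻¹ • y) (by rw [nr_smul, abs_of_pos (inv_pos.2 hn),
      inv_mul_cancel₀ hn.ne']) (by rw [dt_smul, hy, mul_zero])
    have h2 : Φ ((nr y)⁻¹ • y) = (nr y)⁻¹ * Φ y := by
      rw [hΦ]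
      simp only [dt_smul, abs_mul, abs_of_pos (inv_pos.2 hn)]
      rw [Finset.mul_sum]
    rw [h2] at h1
    have h3 := mul_le_mul_of_nonneg_left h1 hn.le
    rw [← mul_assoc, mul_inv_cancel₀ hn.ne', one_mul] at h3
    linarith
  refine ⟨κ / (2 * Fintype.card t), by positivity, fun y => ?_⟩
  set y' := y - dt χ y • v with hy'
  have hy0 : dt χ y' = 0 := by rw [hy', dt_sub, dt_smul, hchiv, mul_one, sub_self]
  have h1 := hhom y' hy0
  have h2 : ∑ j : t, dt j.1 y' = 0 := by rw [← hchi, hy0, mul_zero]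
  have h3 : ∀ i : t, dt i.1 y' = dt i.1 y - dt χ y := by
    intro i
    rw [hy', dt_sub, dt_smul, htv i.1 i.2, mul_one]
  by_contra hne
  push Not at hne
  -- all the values are less than the constant `a`
  set a := κ / (2 * Fintype.card t) * nr y' with ha
  have ha0 : 0 ≤ a := by
    rw [ha]; have := nr_nonneg y'; positivity
  have h4 : ∀ i : t, dt i.1 y' < a := fun i => by rw [h3]; exact hne i
  rcases ha0.eq_or_lt with h0 | ha0
  · have h7 : ∑ j : t, dt j.1 y' < ∑ _j : t, a :=
      Finset.sum_lt_sum_of_nonempty Finset.univ_nonempty fun i _ => h4 i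
    rw [h2, ← h0] at h7
    simp at h7
  have h5 : Φ y' < Fintype.card t * (2 * a) := by
    have h6 : ∀ i : t, |dt i.1 y'| < 2 * a - dt i.1 y' := by
      intro i
      rw [abs_lt]
      have := h4 i
      constructor <;> linarith
    calc Φ y' < ∑ i : t, (2 * a - dt i.1 y') :=
          Finset.sum_lt_sum_of_nonempty Finset.univ_nonempty fun i _ => h6 i
      _ = Fintype.card t * (2 * a) := by
          rw [Finset.sum_sub_distrib, h2, sub_zero]
          simp
  have h6 : (Fintype.card t : ℝ) * (2 * a) = κ * nr y' := by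
    rw [ha]; field_simp
  linarith

/-- Vertices are corners. If the supporting functionals at `v` separate all directions from the one
of `v`, then there is a corner. -/
theorem corner_of_vertex {v : E e} (hv1 : L q F v = 1)
    (h : ∀ y : E e, (∀ c ∈ DD q F v, ∀ c' ∈ DD q F v, dt c y = dt c' y) → ∃ r : ℝ, y = r • v) :
    ∃ t : Finset (E e), Nonempty (Cor e q F t) := by
  classical
  obtain ⟨t, ht1, ht2, ht3⟩ := exists_finite (q := q) (F := F) v
  have htv : ∀ f ∈ t, dt f v = 1 := fun f hf => (ht1 f hf).1.2.trans hv1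
  obtain ⟨c0, hc0, hlat⟩ := exists_lat v ht2 htv (fun y hy => by
    by_contra hne
    push Not at hne
    have hg := ht3 y hy
    have hneg : ∀ r : ℝ, -y ≠ r • v := fun r hr => hne (-r) (by rw [neg_smul, ← hr, neg_neg])
    obtain ⟨f, hf, hfmax⟩ := exists_good (q := q) (F := F) v y hne
    obtain ⟨f', hf', hfmin⟩ := exists_good (q := q) (F := F) v (-y) hneg
    obtain ⟨r, hr⟩ := h y fun c hc c' hc' => by
      have h1 := hfmax c hc
      have h2 := hfmax c' hc'
      have h3 := hfmin c hc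
      have h4 := hfmin c' hc'
      rw [dt_neg, dt_neg] at h3 h4
      have h5 := hg f hf f' hf'
      linarith
    exact hne r hr)
  choose w hw1 hw2 using fun i : t => (ht1 i.1 i.2).2
  exact ⟨t, ⟨{
    v := v
    f := fun i => i.1
    fv := fun i => htv i.1 i.2
    lb := fun i => (ht1 i.1 i.2).1.1
    c0 := c0
    c0_pos := hc0
    lat := hlat
    u := fun i => w i - dt i.1 (w i) • v
    fu := fun i => by rw [dt_sub, dt_smul, htv i.1 i.2, mul_one, sub_self]
    u_ne := fun i h0 => hw1 i _ (sub_eq_zero.1 h0)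
    tang := fun i => tang_of hv1 fun c hc hcv => by
      rw [dt_sub, dt_smul, hcv, hv1, mul_one]
      have := hw2 i c ⟨hc, hcv⟩
      linarith
    ub := by
      have h1 := U_L (q := q) (F := F) v
      rw [hv1] at h1
      exact h1 }⟩⟩

/-- No vertices: if there are no corners, then in every direction `v` there is a transversal direction
in which all the supporting functionals agree. -/
theorem no_vertex (hfar : FarB e q F) (hcor : ∀ (ι : Type) [Fintype ι] (_ : Cor e q F ι), False)
    {v : E e} (hv : v ≠ 0) : ∃ y : E e, (∀ r : ℝ, y ≠ r • v) ∧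
      ∀ c c' : E e, Supp q F c v → Supp q F c' v → dt c y = dt c' y := by
  have hL := L_pos (q := q) (F := F) hfar hv
  have hL' := inv_pos.2 hL
  by_contra hne
  push Not at hne
  obtain ⟨t, ⟨D⟩⟩ := corner_of_vertex (q := q) (F := F) (v := (L q F v)⁻¹ • v)
    (by rw [L_smul hL', inv_mul_cancel₀ hL.ne']) (fun y hy => by
      by_contra hr
      push Not at hr
      obtain ⟨c, c', hc, hc', h⟩ := hne y fun r hr' => hr (r * L q F v) (by
        rw [smul_smul, mul_assoc, mul_inv_cancel₀ hL.ne', mul_one]; exact hr')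
      obtain ⟨h1, h2⟩ := supp_iff.1 hc
      obtain ⟨h3, h4⟩ := supp_iff.1 hc'
      exact h (hy c ⟨h1, by rw [dt_smul, h2, L_smul hL']⟩ c' ⟨h3, by rw [dt_smul, h4, L_smul hL']⟩))
  exact hcor t D

end Pool.Agent.J6H84.NX
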